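import Pool.Agent.Lib.MP_91138c_lc.NoAbelian
import Pool.Agent.Lib.MP_91138c_lc.Example

/-!
# A non-abelian mirror code that no abelian mirror code dominates
-/

namespace Pool.Agent.Results.MP_91138c_lc.Disproof

open Pool.Agent.Lib.MP_91138c_lc

/-- The answer to Q1 is negative: the asymmetric mirror code on the dicyclic group of order 12 with
`A = exA`, `B = exB` is valid and has parameters `[[12, 5, 3]]`, and no abelian mirror code is at
least as good in the three parameters (so none dominates it). -/
theorem result :
    ¬ Question ∧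
    (∃ x y : QuaternionGroup 3, x * y ≠ y * x) ∧
    Valid (asymCheck exA exB) ∧
    Fintype.card (QuaternionGroup 3) = 12 ∧
    logicalQubits (asymCheck exA exB) = 5 ∧
    distance (asymCheck exA exB) = 3 ∧
    ∀ (H : Type) [CommGroup H] [Fintype H] [DecidableEq H] (A' B' : Finset H),
      ¬ AtLeastAsGood (Fintype.card H) (logicalQubits (symCheck A' B'))
        (distance (symCheck A' B')) 12 5 3 := by
  have hna : ∃ x y : QuaternionGroup 3, x * y ≠ y * x :=
    ⟨QuaternionGroup.a 1, QuaternionGroup.xa 0, by decide⟩
  refine ⟨?_, hna, ex_valid, card_Dic, ex_logicalQubits, ex_distance, fun H _ _ _ A' B' =>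
    no_abelian A' B'⟩
  intro hQ
  obtain ⟨H, i1, i2, i3, A', B', hdom, -⟩ :=
    hQ (QuaternionGroup 3) exA exB (asymCheck exA exB) hna (Or.inr rfl) ex_valid
  have hc : Fintype.card (QuaternionGroup 3) = 12 := card_Dic
  rw [hc, ex_logicalQubits, ex_distance] at hdom
  exact no_abelian A' B' hdom

end Pool.Agent.Results.MP_91138c_lc.Disproof
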